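import Mathlib
import Pool.Agent.H740Z.RoutingC

/-! No randomized online protocol routes all short simple path collections in time `O(C + D)`
with high probability. -/

set_option autoImplicit false

namespace Pool.Agent.Results.MP_7e32c9_lc.ANoOptimalOnline

open MeasureTheory Pool.Agent.H740Z.Routing

theorem result (ε α : ℝ) (hε : 0 < ε) (hα : 0 < α) (c : ℕ) :
    ∃ δ : ℝ, 0 < δ ∧ ∃ n₀ : ℕ, ∀ n ≥ n₀,
      ∃ (V : Type) (_ : Fintype V) (_ : DecidableEq V) (G : Digraph V),
        ∀ (S Ω : Type) [MeasurableSpace Ω] (μ : Measure Ω) [IsProbabilityMeasure μ]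
          (A : Ω → Protocol V n S),
          ∃ P : Fin n → List V,
            (∀ i, P i ≠ [] ∧ (P i).IsChain G.Adj ∧ (P i).Nodup) ∧
            Real.log n ^ δ ≤ congestion P ∧
            ((max (congestion P) (dilation P) : ℕ) : ℝ) < Real.log n ^ (1 + ε) ∧
            ENNReal.ofReal ((n : ℝ) ^ (-α)) <
              μ {ω | ¬ Delivered (A ω) P (c * (congestion P + dilation P))} :=
  main ε α hε hα c

end Pool.Agent.Results.MP_7e32c9_lc.ANoOptimalOnline
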